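import Pool.Agent.Helper74.NM.St

/-!
# Project NM (MP_26f0da_lc), module TRN: matchings and stacks
-/

set_option autoImplicit false

namespace Pool.Agent.Helper75.NM

open Pool.Agent.Helper74 Pool.Agent.Helper74.NM

private theorem fwd {G : Type} (P : G → G → Prop) (op : G → Prop)
    (hop : ∀ a b, P a b → op a) (w : List G) (h : NC P w) : ∀ σ, Tr P op w σ σ := by
  induction h with
  | nil =>
    intro σ
    exact (tr_nil P op σ σ).2 rfl
  | wrap x y u v hxy hu hv ihu ihv =>
    intro σ
    rw [tr_cons]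
    refine Or.inl ⟨hop x y hxy, ?_⟩
    rw [tr_append]
    refine ⟨x :: σ, ihu _, ?_⟩
    rw [tr_cons]
    exact Or.inr ⟨x, σ, rfl, hxy, ihv σ⟩

/-- `Sg σ w`: the word `w` consists of matched segments, separated by letters which pop the letters
of `σ`. -/
private def Sg {G : Type} (P : G → G → Prop) : List G → List G → Prop
  | [], w => NC P w
  | x :: σ, w => ∃ (d : List G) (y : G) (w₁ : List G), w = d ++ y :: w₁ ∧ NC P d ∧ P x y ∧ Sg P σ w₁

private theorem bwd {G : Type} (P : G → G → Prop) (op : G → Prop) (w : List G) :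
    ∀ σ, Tr P op w σ [] → Sg P σ w := by
  induction w with
  | nil =>
    intro σ h
    rw [tr_nil] at h
    subst h
    exact NC.nil
  | cons a w ih =>
    intro σ h
    rw [tr_cons] at h
    rcases h with ⟨_, h⟩ | ⟨x, σ', rfl, hx, h⟩
    · obtain ⟨d, y, w₁, rfl, hd, hy, hs⟩ := ih _ h
      cases σ with
      | nil => exact NC.wrap a y d w₁ hy hd hs
      | cons x σ' =>
        obtain ⟨d', y', w₂, rfl, hd', hy', hs'⟩ := hs
        refine ⟨a :: (d ++ y :: d'), y', w₂, by simp, NC.wrap a y d d' hy hd hd', hy', hs'⟩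
    · exact ⟨[], a, w, rfl, NC.nil, hx, ih _ h⟩

theorem hTRN : StTRN := by
  intro G P op hop w
  exact ⟨fun h => fwd P op hop w h [], fun h => bwd P op w [] h⟩

end Pool.Agent.Helper75.NM
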